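import Pool.Agent.P8H70.TR.Stm

/-! # TR/KER (helper94): a kernel with a plateau -/

set_option autoImplicit false

namespace Pool.Agent.P8H94.TR

open Finset Polynomial Complex MeasureTheory
open Pool.Agent.P8H70.TR

/-- the averaging polynomial -/
noncomputable def Dp (L : ℕ) : ℝ[X] := C ((L : ℝ)⁻¹) * ∑ b ∈ range L, X ^ b

/-- iterated averages -/
noncomputable def Qp (N L : ℕ) : ℕ → ℝ[X]
  | 0 => ∑ a ∈ range N, X ^ a
  | m + 1 => Qp N L m * Dp L

theorem coeff_zero' (N L j : ℕ) : (Qp N L 0).coeff j = if j < N then 1 else 0 := by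
  rw [Qp, finsetSum_coeff]
  simp only [coeff_X_pow, sum_ite_eq, mem_range]

theorem coeff_succ' (N L m j : ℕ) : (Qp N L (m + 1)).coeff j =
    (L : ℝ)⁻¹ * ∑ b ∈ range L, (if b ≤ j then (Qp N L m).coeff (j - b) else 0) := by
  rw [Qp, Dp, ← mul_assoc, mul_comm (Qp N L m) (C _), mul_assoc, coeff_C_mul, mul_sum, finsetSum_coeff]
  congr 1
  refine sum_congr rfl fun b _ => ?_
  rw [coeff_mul_X_pow']

theorem coeffs (N L : ℕ) (hL : 1 ≤ L) (m : ℕ) : (∀ j, 0 ≤ (Qp N L m).coeff j ∧ (Qp N L m).coeff j ≤ 1) ∧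
    (∀ j, m * (L - 1) ≤ j → j < N → (Qp N L m).coeff j = 1) ∧
    ∀ j, N + m * (L - 1) ≤ j → (Qp N L m).coeff j = 0 := by
  have hL0 : (0 : ℝ) < L := by exact_mod_cast hL
  induction m with
  | zero =>
    refine ⟨fun j => ?_, fun j _ hj => ?_, fun j hj => ?_⟩
    · rw [coeff_zero']
      split_ifs <;> norm_num
    · rw [coeff_zero', if_pos hj]
    · rw [coeff_zero', if_neg (by omega)]
  | succ m ih =>
    obtain ⟨h1, h2, h3⟩ := ih
    refine ⟨fun j => ⟨?_, ?_⟩, fun j hj hjN => ?_, fun j hj => ?_⟩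
    · rw [coeff_succ']
      refine mul_nonneg (by positivity) (sum_nonneg fun b _ => ?_)
      split_ifs
      · exact (h1 _).1
      · exact le_rfl
    · rw [coeff_succ']
      have h4 : ∑ b ∈ range L, (if b ≤ j then (Qp N L m).coeff (j - b) else 0) ≤ L := by
        calc _ ≤ ∑ b ∈ range L, (1 : ℝ) := sum_le_sum fun b _ => by
              split_ifs
              · exact (h1 _).2
              · exact zero_le_one
          _ = L := by simp
      calc _ ≤ (L : ℝ)⁻¹ * L := mul_le_mul_of_nonneg_left h4 (by positivity)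
        _ = 1 := inv_mul_cancel₀ hL0.ne'
    · rw [coeff_succ']
      have h5 : (m + 1) * (L - 1) = m * (L - 1) + (L - 1) := by ring
      have h4 : ∑ b ∈ range L, (if b ≤ j then (Qp N L m).coeff (j - b) else 0) = L := by
        calc _ = ∑ b ∈ range L, (1 : ℝ) := sum_congr rfl fun b hb => by
              rw [mem_range] at hb
              rw [if_pos (by omega), h2 _ (by omega) (by omega)]
          _ = L := by simp
      rw [h4, inv_mul_cancel₀ hL0.ne']
    · rw [coeff_succ']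
      have h5 : (m + 1) * (L - 1) = m * (L - 1) + (L - 1) := by ring
      have h4 : ∑ b ∈ range L, (if b ≤ j then (Qp N L m).coeff (j - b) else 0) = 0 := by
        refine sum_eq_zero fun b hb => ?_
        rw [mem_range] at hb
        rw [if_pos (by omega), h3 _ (by omega)]
      rw [h4, mul_zero]

theorem aeval_Q (N L m : ℕ) (z : ℂ) : aeval z (Qp N L m) = (∑ a ∈ range N, z ^ a) * (aeval z (Dp L)) ^ m := by
  induction m with
  | zero => simp [Qp]
  | succ m ih => rw [Qp, map_mul, ih, pow_succ, mul_assoc]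

theorem aeval_D (L : ℕ) (z : ℂ) : aeval z (Dp L) = (L : ℂ)⁻¹ * ∑ b ∈ range L, z ^ b := by
  rw [Dp, map_mul, aeval_C, map_sum]
  simp

theorem norm_z (t : ℝ) : ‖cexp (t * I)‖ = 1 := by
  rw [Complex.norm_exp_ofReal_mul_I]

theorem norm_sum_pow (N : ℕ) (t : ℝ) : ‖∑ a ∈ range N, cexp (t * I) ^ a‖ ≤ N := by
  refine (norm_sum_le _ _).trans ?_
  simp [norm_z]

theorem geo (L : ℕ) (hL : 1 ≤ L) (t d : ℝ) (hd0 : 0 ≤ d) (hd : d ≤ |Real.sin (t / 2)|) :
    ‖aeval (cexp (t * I)) (Dp L)‖ ≤ 1 ∧ ‖aeval (cexp (t * I)) (Dp L)‖ ^ 2 * (1 + (L * d) ^ 2) ≤ 2 := by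
  have hL0 : (0 : ℝ) < L := by exact_mod_cast hL
  set S := ∑ b ∈ range L, cexp (t * I) ^ b with hS
  have h1 : ‖aeval (cexp (t * I)) (Dp L)‖ = (L : ℝ)⁻¹ * ‖S‖ := by
    rw [aeval_D, norm_mul, norm_inv, Complex.norm_natCast]
  have h2 : ‖S‖ ≤ L := norm_sum_pow L t
  have h3 : ‖aeval (cexp (t * I)) (Dp L)‖ ≤ 1 := by
    rw [h1]
    calc _ ≤ (L : ℝ)⁻¹ * L := mul_le_mul_of_nonneg_left h2 (by positivity)
      _ = 1 := inv_mul_cancel₀ hL0.ne'
  have h4 : ‖S‖ * d ≤ 1 := by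
    have e1 : S * (cexp (t * I) - 1) = cexp (t * I) ^ L - 1 := geom_sum_mul _ _
    have e2 : ‖S‖ * ‖cexp (t * I) - 1‖ ≤ 2 := by
      rw [← norm_mul, e1]
      refine (norm_sub_le _ _).trans ?_
      rw [norm_pow, norm_z, one_pow, norm_one]
      norm_num
    have e3 : ‖cexp (t * I) - 1‖ = 2 * |Real.sin (t / 2)| := by
      rw [mul_comm, Complex.norm_exp_I_mul_ofReal_sub_one, norm_mul, Real.norm_eq_abs, Real.norm_eq_abs, abs_two]
    rw [e3] at e2
    have e4 := mul_le_mul_of_nonneg_left hd (norm_nonneg S)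
    linarith
  refine ⟨h3, ?_⟩
  have h5 : ‖aeval (cexp (t * I)) (Dp L)‖ * (L * d) = ‖S‖ * d := by
    rw [h1]
    field_simp
  have h6 : (‖aeval (cexp (t * I)) (Dp L)‖ * (L * d)) ^ 2 ≤ 1 := by
    rw [h5]
    exact pow_le_one₀ (by positivity) h4
  have h7 : ‖aeval (cexp (t * I)) (Dp L)‖ ^ 2 ≤ 1 := pow_le_one₀ (norm_nonneg _) h3
  nlinarith

/-- the majorant -/
noncomputable def W (L : ℕ) (t : ℝ) : ℝ := (1 + ((L / Real.pi) * t) ^ 2)⁻¹

theorem W_pos (L : ℕ) (t : ℝ) : 0 < W L t := by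
  unfold W
  positivity

theorem geo2 (L : ℕ) (hL : 1 ≤ L) (t : ℝ) (h0 : 0 ≤ t) (h1 : t ≤ 2 * Real.pi) :
    ‖aeval (cexp (t * I)) (Dp L)‖ ^ 2 ≤ 2 * W L t + 2 * W L (2 * Real.pi - t) := by
  have hp := Real.pi_pos
  rcases le_total t Real.pi with ht | ht
  · have hs : t / Real.pi ≤ |Real.sin (t / 2)| := by
      refine le_trans ?_ (le_abs_self _)
      have h := Real.mul_le_sin (x := t / 2) (by linarith) (by linarith)
      have e : 2 / Real.pi * (t / 2) = t / Real.pi := by ring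
      rwa [e] at h
    have h := (geo L hL t (t / Real.pi) (by positivity) hs).2
    have e : (L : ℝ) * (t / Real.pi) = (L / Real.pi) * t := by ring
    rw [e] at h
    have h2 : ‖aeval (cexp (t * I)) (Dp L)‖ ^ 2 ≤ 2 * W L t := by
      unfold W
      rw [← div_eq_mul_inv, le_div_iff₀ (by positivity)]
      exact h
    linarith [W_pos L (2 * Real.pi - t)]
  · have hs : (2 * Real.pi - t) / Real.pi ≤ |Real.sin (t / 2)| := by
      refine le_trans ?_ (le_abs_self _)
      have h := Real.mul_le_sin (x := Real.pi - t / 2) (by linarith) (by linarith)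
      rw [Real.sin_pi_sub] at h
      have e : 2 / Real.pi * (Real.pi - t / 2) = (2 * Real.pi - t) / Real.pi := by ring
      rwa [e] at h
    have h := (geo L hL t ((2 * Real.pi - t) / Real.pi) (div_nonneg (by linarith) hp.le) hs).2
    have e : (L : ℝ) * ((2 * Real.pi - t) / Real.pi) = (L / Real.pi) * (2 * Real.pi - t) := by ring
    rw [e] at h
    have h2 : ‖aeval (cexp (t * I)) (Dp L)‖ ^ 2 ≤ 2 * W L (2 * Real.pi - t) := by
      unfold W
      rw [← div_eq_mul_inv, le_div_iff₀ (by positivity)]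
      exact h
    linarith [W_pos L t]

theorem cont_W (L : ℕ) : Continuous (W L) := by
  unfold W
  refine Continuous.inv₀ (by fun_prop) fun t => ?_
  positivity

theorem int_W (L : ℕ) (hL : 1 ≤ L) : ∫ t in (0 : ℝ)..(2 * Real.pi), W L t ≤ Real.pi ^ 2 / (2 * L) := by
  have hp := Real.pi_pos
  have hL0 : (0 : ℝ) < L := by exact_mod_cast hL
  have hc : (L : ℝ) / Real.pi ≠ 0 := by positivity
  have h := intervalIntegral.integral_comp_mul_left (a := 0) (b := 2 * Real.pi) (fun x : ℝ => (1 + x ^ 2)⁻¹) hc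
  have e : ∫ t in (0 : ℝ)..(2 * Real.pi), W L t =
      ((L : ℝ) / Real.pi)⁻¹ * (Real.arctan ((L : ℝ) / Real.pi * (2 * Real.pi)) - Real.arctan 0) := by
    rw [mul_zero] at h
    rw [integral_inv_one_add_sq, smul_eq_mul] at h
    exact h
  rw [e, Real.arctan_zero, sub_zero]
  have h2 := (Real.arctan_lt_pi_div_two ((L : ℝ) / Real.pi * (2 * Real.pi))).le
  calc _ ≤ ((L : ℝ) / Real.pi)⁻¹ * (Real.pi / 2) := mul_le_mul_of_nonneg_left h2 (by positivity)
    _ = Real.pi ^ 2 / (2 * L) := by field_simp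

theorem int_W' (L : ℕ) (hL : 1 ≤ L) :
    ∫ t in (0 : ℝ)..(2 * Real.pi), W L (2 * Real.pi - t) ≤ Real.pi ^ 2 / (2 * L) := by
  rw [intervalIntegral.integral_comp_sub_left (fun t => W L t) (2 * Real.pi), sub_self, sub_zero]
  exact int_W L hL

theorem ker : S_KER := by
  intro p hp
  set m : ℕ := ⌈2 / p⌉₊ with hm
  have hm1 : 1 ≤ m := Nat.one_le_iff_ne_zero.2 (Nat.ceil_pos.2 (by positivity)).ne'
  have hmp : 2 ≤ (m : ℝ) * p := by
    have h := Nat.le_ceil (2 / p)
    rw [← hm, div_le_iff₀ hp] at h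
    exact h
  have hm0 : (0 : ℝ) < m := by exact_mod_cast hm1
  refine ⟨8 * Real.pi ^ 2 * m, by positivity, ?_⟩
  intro n hn
  set L : ℕ := n / (4 * m) + 1 with hL
  set N : ℕ := n / 2 + 1 with hN
  have hL1 : 1 ≤ L := Nat.le_add_left _ _
  have hL0 : (0 : ℝ) < L := by exact_mod_cast hL1
  have hn0 : (0 : ℝ) < n := by exact_mod_cast hn
  obtain ⟨h1, h2, h3⟩ := coeffs N L hL1 m
  have hLm : 4 * (m * (L - 1)) ≤ n := by
    have : 4 * m * (n / (4 * m)) ≤ n := Nat.mul_div_le n (4 * m)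
    rw [hL, Nat.add_sub_cancel, ← mul_assoc]
    exact this
  have hdeg : (Qp N L m).natDegree < n + 1 := by
    refine Nat.lt_succ_of_le (natDegree_le_iff_coeff_eq_zero.2 fun j hj => h3 j ?_)
    omega
  refine ⟨fun j => (Qp N L m).coeff j, h1, fun j hj hj2 => h2 j (by omega) (by omega), ?_⟩
  have hV : ∀ t : ℝ, tp n (fun j => (((Qp N L m).coeff j : ℝ) : ℂ)) t = aeval (cexp (t * I)) (Qp N L m) := by
    intro t
    rw [aeval_eq_sum_range' hdeg, tp]
    refine sum_congr rfl fun j _ => ?_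
    rw [Complex.real_smul, ← Complex.exp_nat_mul]
    congr 2
    push_cast
    ring
  have hN0 : (0 : ℝ) ≤ N := Nat.cast_nonneg _
  have hpt : ∀ t ∈ Set.Icc (0 : ℝ) (2 * Real.pi), ‖tp n (fun j => (((Qp N L m).coeff j : ℝ) : ℂ)) t‖ ^ p ≤
      (N : ℝ) ^ p * (2 * W L t + 2 * W L (2 * Real.pi - t)) := by
    intro t ht
    rw [hV, aeval_Q, norm_mul, norm_pow, Real.mul_rpow (norm_nonneg _) (by positivity)]
    have hr1 : ‖aeval (cexp (t * I)) (Dp L)‖ ≤ 1 := (geo L hL1 t 0 le_rfl (abs_nonneg _)).1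
    refine mul_le_mul (Real.rpow_le_rpow (norm_nonneg _) (norm_sum_pow N t) hp.le) ?_ (by positivity)
      (by positivity)
    refine le_trans ?_ (geo2 L hL1 t ht.1 ht.2)
    rw [← Real.rpow_natCast, ← Real.rpow_mul (norm_nonneg _), ← Real.rpow_natCast _ 2]
    rcases (norm_nonneg (aeval (cexp (t * I)) (Dp L))).eq_or_lt with h0 | h0
    · rw [← h0, Real.zero_rpow (by positivity), Real.zero_rpow (by norm_num)]
    · exact Real.rpow_le_rpow_of_exponent_ge h0 hr1 (by push_cast; exact hmp)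
  have hcont : Continuous fun t : ℝ => ‖tp n (fun j => (((Qp N L m).coeff j : ℝ) : ℂ)) t‖ ^ p := by
    refine Continuous.rpow_const ?_ fun t => Or.inr hp.le
    unfold tp
    fun_prop
  have hcW := cont_W L
  have hcW' : Continuous fun t : ℝ => W L (2 * Real.pi - t) := hcW.comp (by fun_prop)
  have hint : ∫ t in (0 : ℝ)..(2 * Real.pi), ‖tp n (fun j => (((Qp N L m).coeff j : ℝ) : ℂ)) t‖ ^ p ≤
      (N : ℝ) ^ p * (2 * (Real.pi ^ 2 / (2 * L)) + 2 * (Real.pi ^ 2 / (2 * L))) := by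
    refine (intervalIntegral.integral_mono_on (by positivity) (hcont.intervalIntegrable _ _)
      ((by fun_prop : Continuous fun t : ℝ => (N : ℝ) ^ p * (2 * W L t + 2 * W L (2 * Real.pi - t))).intervalIntegrable
        _ _) hpt).trans ?_
    have i1 : IntervalIntegrable (fun t : ℝ => 2 * W L t) volume 0 (2 * Real.pi) :=
      (by fun_prop : Continuous fun t : ℝ => 2 * W L t).intervalIntegrable _ _
    have i2 : IntervalIntegrable (fun t : ℝ => 2 * W L (2 * Real.pi - t)) volume 0 (2 * Real.pi) :=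
      (by fun_prop : Continuous fun t : ℝ => 2 * W L (2 * Real.pi - t)).intervalIntegrable _ _
    rw [intervalIntegral.integral_const_mul, intervalIntegral.integral_add i1 i2,
      intervalIntegral.integral_const_mul, intervalIntegral.integral_const_mul]
    have := int_W L hL1
    have := int_W' L hL1
    gcongr
  refine hint.trans ?_
  have hNn : (N : ℝ) ^ p ≤ (n : ℝ) ^ p := by
    refine Real.rpow_le_rpow hN0 ?_ hp.le
    exact_mod_cast (by omega : N ≤ n)
  have hLn : (n : ℝ) ≤ 4 * m * L := by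
    have h4 : n ≤ 4 * m * L := by
      have h5 := Nat.div_add_mod n (4 * m)
      have h6 := Nat.mod_lt n (by omega : 4 * m > 0)
      have h7 : 4 * m * L = 4 * m * (n / (4 * m)) + 4 * m := by rw [hL]; ring
      omega
    exact_mod_cast h4
  have e : (n : ℝ) ^ (p - 1) = (n : ℝ) ^ p / n := by
    rw [Real.rpow_sub hn0, Real.rpow_one]
  rw [e]
  have hinv : 1 / (L : ℝ) ≤ 4 * m / n := by
    rw [div_le_div_iff₀ hL0 hn0]
    linarith
  have hnp : 0 ≤ (n : ℝ) ^ p := by positivity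
  calc (N : ℝ) ^ p * (2 * (Real.pi ^ 2 / (2 * L)) + 2 * (Real.pi ^ 2 / (2 * L))) =
      (N : ℝ) ^ p * (2 * Real.pi ^ 2 * (1 / L)) := by
        field_simp
        ring
    _ ≤ (n : ℝ) ^ p * (2 * Real.pi ^ 2 * (4 * m / n)) := by gcongr
    _ = 8 * Real.pi ^ 2 * m * ((n : ℝ) ^ p / n) := by ring

end Pool.Agent.P8H94.TR
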