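import Pool.Agent.P8H70.TR.Stm2
import Pool.Agent.P8H66.TR.Exp

/-! # TR/L4B (helper94): the fourth moment of the unimodular test polynomial -/

set_option autoImplicit false

open Complex MeasureTheory Polynomial Finset ComplexConjugate

namespace Pool.Agent.P8H94.TR

open Pool.Agent.P8H70.TR Pool.Agent.P8H66.TR

variable (q : ℕ) [NeZero q] {k : ℕ}

/-- the sum of `S_B4` -/
noncomputable def G (a b c e : ℕ) : ℂ := ∑ x : ZMod q,
  cexp ((((cs q (a * x) + cs q (b * x) - cs q (c * x) - cs q (e * x)) / 4 : ℝ) : ℂ) * I)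

theorem T_eq2 (n : ℕ) (J : Finset ℕ) (hJ : ∀ j ∈ J, 1 ≤ j ∧ j ≤ n) (ω : Fin k → ZMod q) (t : ℝ) :
    tp n (fun j => if j ∈ J then hh q (mu q j ω) else 0) t =
      ∑ j ∈ J, hh q (mu q j ω) * cexp (((j * t : ℝ) : ℂ) * I) := by
  unfold tp
  simp only [ite_mul, zero_mul]
  rw [Finset.sum_ite_mem, Finset.inter_eq_right.2 (fun j hj => by
    rw [mem_range]; have := (hJ j hj).2; omega)]

theorem term2 (a b c e : ℕ) (ω : Fin k → ZMod q) (t : ℝ) :
    (hh q (mu q a ω) * cexp (((a * t : ℝ) : ℂ) * I)) * (hh q (mu q b ω) * cexp (((b * t : ℝ) : ℂ) * I)) *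
      conj ((hh q (mu q c ω) * cexp (((c * t : ℝ) : ℂ) * I)) *
        (hh q (mu q e ω) * cexp (((e * t : ℝ) : ℂ) * I))) =
    (∏ i, cexp ((((cs q (a * ω i) + cs q (b * ω i) - cs q (c * ω i) - cs q (e * ω i)) / 4 : ℝ) : ℂ) * I)) *
      cexp ((((a : ℤ) + b - (c + e) : ℤ) : ℂ) * I * t) := by
  have h1 : ∏ i, cexp ((((cs q (a * ω i) + cs q (b * ω i) - cs q (c * ω i) - cs q (e * ω i)) / 4 : ℝ) : ℂ) * I) =
      cexp ((((YY q (mu q a ω) + YY q (mu q b ω) - YY q (mu q c ω) - YY q (mu q e ω)) / 4 : ℝ) : ℂ) * I) := by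
    rw [← Complex.exp_sum, ← Finset.sum_mul, ← Complex.ofReal_sum]
    congr 3
    simp only [YY, mu]
    rw [← Finset.sum_div, Finset.sum_sub_distrib, Finset.sum_sub_distrib, Finset.sum_add_distrib]
  rw [h1]
  unfold hh
  simp only [map_mul, ← Complex.exp_conj, Complex.conj_ofReal, Complex.conj_I]
  simp only [← Complex.exp_add]
  congr 1
  push_cast
  ring

theorem sum_G (a b c e : ℕ) : ∑ ω : Fin k → ZMod q, ∏ i, cexp ((((cs q (a * ω i) + cs q (b * ω i) -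
    cs q (c * ω i) - cs q (e * ω i)) / 4 : ℝ) : ℂ) * I) = G q a b c e ^ k := by
  have h1 : ∑ ω : Fin k → ZMod q, ∏ i, cexp ((((cs q (a * ω i) + cs q (b * ω i) -
      cs q (c * ω i) - cs q (e * ω i)) / 4 : ℝ) : ℂ) * I) = ∏ i : Fin k, G q a b c e := by
    unfold G
    rw [Finset.prod_univ_sum, Fintype.piFinset_univ]
  rw [h1, prod_const, card_univ, Fintype.card_fin]

theorem norm_G (a b c e : ℕ) : ‖G q a b c e‖ ≤ q := by
  unfold G
  refine (norm_sum_le _ _).trans ?_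
  have h : ∀ x ∈ (univ : Finset (ZMod q)), ‖cexp ((((cs q (a * x) + cs q (b * x) - cs q (c * x) -
      cs q (e * x)) / 4 : ℝ) : ℂ) * I)‖ = 1 := fun x _ => Complex.norm_exp_ofReal_mul_I _
  rw [sum_congr rfl h]
  simp

theorem l4b : S_L4B := by
  classical
  intro hB q _ n k J hq hJ hk
  set P := (J ×ˢ J) ×ˢ (J ×ˢ J) with hP
  have key : ((∑ ω : Fin k → ZMod q, ∫ t in (0 : ℝ)..(2 * Real.pi),
      ‖tp n (fun j => if j ∈ J then hh q (mu q j ω) else 0) t‖ ^ 4 : ℝ) : ℂ) =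
      ∑ y ∈ P, G q y.1.1 y.1.2 y.2.1 y.2.2 ^ k *
        (if y.1.1 + y.1.2 = y.2.1 + y.2.2 then (2 * Real.pi : ℂ) else 0) := by
    have h1 : ∀ ω : Fin k → ZMod q, ((∫ t in (0 : ℝ)..(2 * Real.pi),
        ‖tp n (fun j => if j ∈ J then hh q (mu q j ω) else 0) t‖ ^ 4 : ℝ) : ℂ) =
        ∑ y ∈ P, (∏ i, cexp ((((cs q (y.1.1 * ω i) + cs q (y.1.2 * ω i) -
          cs q (y.2.1 * ω i) - cs q (y.2.2 * ω i)) / 4 : ℝ) : ℂ) * I)) *
          (if y.1.1 + y.1.2 = y.2.1 + y.2.2 then (2 * Real.pi : ℂ) else 0) := by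
      intro ω
      rw [← intervalIntegral.integral_ofReal]
      have h2 : ∀ t : ℝ, ((‖tp n (fun j => if j ∈ J then hh q (mu q j ω) else 0) t‖ ^ 4 : ℝ) : ℂ) =
          ∑ y ∈ P, (∏ i, cexp ((((cs q (y.1.1 * ω i) + cs q (y.1.2 * ω i) -
            cs q (y.2.1 * ω i) - cs q (y.2.2 * ω i)) / 4 : ℝ) : ℂ) * I)) *
            cexp ((((y.1.1 : ℤ) + y.1.2 - (y.2.1 + y.2.2) : ℤ) : ℂ) * I * t) := by
        intro t
        rw [four, T_eq2 q n J hJ, sum_mul_sum, ← sum_product', map_sum, sum_mul_sum, ← sum_product']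
        refine sum_congr rfl fun y _ => ?_
        exact term2 q _ _ _ _ ω t
      simp only [h2]
      rw [intervalIntegral.integral_finsetSum]
      · refine sum_congr rfl fun y _ => ?_
        rw [intervalIntegral.integral_const_mul, int_exp]
        have e2 : ((y.1.1 : ℤ) + y.1.2 - (y.2.1 + y.2.2) = 0) ↔ y.1.1 + y.1.2 = y.2.1 + y.2.2 := by omega
        simp only [e2]
        split_ifs <;> simp
      · intro y _
        apply Continuous.intervalIntegrable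
        fun_prop
    rw [Complex.ofReal_sum, sum_congr rfl fun ω _ => h1 ω, sum_comm]
    refine sum_congr rfl fun y _ => ?_
    rw [← sum_mul, sum_G]
  have hnn : 0 ≤ ∑ ω : Fin k → ZMod q, ∫ t in (0 : ℝ)..(2 * Real.pi),
      ‖tp n (fun j => if j ∈ J then hh q (mu q j ω) else 0) t‖ ^ 4 :=
    sum_nonneg fun ω _ => intervalIntegral.integral_nonneg (by positivity) fun t _ => by positivity
  have hq0 : (0 : ℝ) ≤ q := Nat.cast_nonneg q
  have hpt : ∀ y ∈ P, ‖G q y.1.1 y.1.2 y.2.1 y.2.2 ^ k *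
      (if y.1.1 + y.1.2 = y.2.1 + y.2.2 then (2 * Real.pi : ℂ) else 0)‖ ≤
      (q : ℝ) ^ k * (2 * Real.pi) * ((if y.2.1 = y.1.1 then (if y.2.2 = y.1.2 then (1 : ℝ) else 0) else 0) +
        (if y.2.1 = y.1.2 then (if y.2.2 = y.1.1 then (1 : ℝ) else 0) else 0) +
        (if y.1.1 + y.1.2 = y.2.1 + y.2.2 then (29 / 30 : ℝ) ^ k else 0)) := by
    intro y hy
    obtain ⟨hy1, hy2⟩ := mem_product.1 hy
    obtain ⟨ha, hb⟩ := mem_product.1 hy1
    obtain ⟨hc, he⟩ := mem_product.1 hy2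
    have hpi : ‖(2 * Real.pi : ℂ)‖ = 2 * Real.pi := by
      rw [norm_mul, Complex.norm_real, Real.norm_eq_abs, abs_of_pos Real.pi_pos]
      norm_num
    by_cases h : y.1.1 + y.1.2 = y.2.1 + y.2.2
    · rw [if_pos h, if_pos h, norm_mul, norm_pow, hpi]
      have hG := norm_G q y.1.1 y.1.2 y.2.1 y.2.2
      have hGk : ‖G q y.1.1 y.1.2 y.2.1 y.2.2‖ ^ k ≤ (q : ℝ) ^ k := pow_le_pow_left₀ (norm_nonneg _) hG k
      have hpos : (0 : ℝ) ≤ (29 / 30) ^ k := by positivity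
      have h2pi : 0 ≤ 2 * Real.pi := by positivity
      by_cases h1 : y.1.1 = y.2.1
      · have h2 : y.1.2 = y.2.2 := by omega
        rw [if_pos h1.symm, if_pos h2.symm]
        have h3 : (0 : ℝ) ≤ (if y.2.1 = y.1.2 then (if y.2.2 = y.1.1 then (1 : ℝ) else 0) else 0) := by
          split_ifs <;> norm_num
        calc ‖G q y.1.1 y.1.2 y.2.1 y.2.2‖ ^ k * (2 * Real.pi) ≤ (q : ℝ) ^ k * (2 * Real.pi) * 1 := by
              rw [mul_one]
              exact mul_le_mul_of_nonneg_right hGk h2pi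
          _ ≤ _ := mul_le_mul_of_nonneg_left (by linarith) (by positivity)
      · by_cases h2 : y.1.1 = y.2.2
        · have h3 : y.1.2 = y.2.1 := by omega
          rw [if_pos h3.symm, if_pos h2.symm]
          have h4 : (0 : ℝ) ≤ (if y.2.1 = y.1.1 then (if y.2.2 = y.1.2 then (1 : ℝ) else 0) else 0) := by
            split_ifs <;> norm_num
          calc ‖G q y.1.1 y.1.2 y.2.1 y.2.2‖ ^ k * (2 * Real.pi) ≤ (q : ℝ) ^ k * (2 * Real.pi) * 1 := by
                rw [mul_one]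
                exact mul_le_mul_of_nonneg_right hGk h2pi
            _ ≤ _ := mul_le_mul_of_nonneg_left (by linarith) (by positivity)
        · have h3 := hB q n y.1.1 y.1.2 y.2.1 y.2.2 hq (hJ _ ha).1 (hJ _ ha).2 (hJ _ hb).1 (hJ _ hb).2
            (hJ _ hc).1 (hJ _ hc).2 (hJ _ he).1 (hJ _ he).2 h1 h2 h
          have h4 : ‖G q y.1.1 y.1.2 y.2.1 y.2.2‖ ^ k ≤ (29 / 30 * q : ℝ) ^ k :=
            pow_le_pow_left₀ (norm_nonneg _) h3 k
          rw [mul_pow] at h4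
          have h5 : (0 : ℝ) ≤ (if y.2.1 = y.1.1 then (if y.2.2 = y.1.2 then (1 : ℝ) else 0) else 0) := by
            split_ifs <;> norm_num
          have h6 : (0 : ℝ) ≤ (if y.2.1 = y.1.2 then (if y.2.2 = y.1.1 then (1 : ℝ) else 0) else 0) := by
            split_ifs <;> norm_num
          calc ‖G q y.1.1 y.1.2 y.2.1 y.2.2‖ ^ k * (2 * Real.pi) ≤
                ((29 / 30 : ℝ) ^ k * (q : ℝ) ^ k) * (2 * Real.pi) := mul_le_mul_of_nonneg_right h4 h2pi
            _ = (q : ℝ) ^ k * (2 * Real.pi) * (29 / 30 : ℝ) ^ k := by ring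
            _ ≤ _ := mul_le_mul_of_nonneg_left (by linarith) (by positivity)
    · rw [if_neg h, if_neg h, mul_zero, norm_zero]
      have h5 : (0 : ℝ) ≤ (if y.2.1 = y.1.1 then (if y.2.2 = y.1.2 then (1 : ℝ) else 0) else 0) := by
        split_ifs <;> norm_num
      have h6 : (0 : ℝ) ≤ (if y.2.1 = y.1.2 then (if y.2.2 = y.1.1 then (1 : ℝ) else 0) else 0) := by
        split_ifs <;> norm_num
      positivity
  have hJc : (J.card : ℝ) ≤ n := by
    have h1 : J ⊆ Icc 1 n := fun j hj => mem_Icc.2 (hJ j hj)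
    have h2 := card_le_card h1
    rw [Nat.card_Icc, Nat.add_sub_cancel] at h2
    exact_mod_cast h2
  have hJ0 : (0 : ℝ) ≤ J.card := Nat.cast_nonneg _
  have hn0 : (0 : ℝ) ≤ n := Nat.cast_nonneg _
  have s1 : ∑ y ∈ P, (if y.2.1 = y.1.1 then (if y.2.2 = y.1.2 then (1 : ℝ) else 0) else 0) ≤ n ^ 2 := by
    rw [hP, sum_product]
    have e : ∀ x ∈ J ×ˢ J, ∑ z ∈ J ×ˢ J, (if z.1 = x.1 then (if z.2 = x.2 then (1 : ℝ) else 0) else 0) = 1 := by
      intro x hx
      obtain ⟨h1, h2⟩ := mem_product.1 hx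
      rw [sum_product]
      simp [h1, h2]
    rw [sum_congr rfl e, sum_const, nsmul_eq_mul, mul_one, card_product]
    push_cast
    nlinarith
  have s2 : ∑ y ∈ P, (if y.2.1 = y.1.2 then (if y.2.2 = y.1.1 then (1 : ℝ) else 0) else 0) ≤ n ^ 2 := by
    rw [hP, sum_product]
    have e : ∀ x ∈ J ×ˢ J, ∑ z ∈ J ×ˢ J, (if z.1 = x.2 then (if z.2 = x.1 then (1 : ℝ) else 0) else 0) = 1 := by
      intro x hx
      obtain ⟨h1, h2⟩ := mem_product.1 hx
      rw [sum_product]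
      simp [h1, h2]
    rw [sum_congr rfl e, sum_const, nsmul_eq_mul, mul_one, card_product]
    push_cast
    nlinarith
  have s3 : ∑ y ∈ P, (if y.1.1 + y.1.2 = y.2.1 + y.2.2 then (29 / 30 : ℝ) ^ k else 0) ≤
      n ^ 3 * (29 / 30 : ℝ) ^ k := by
    rw [hP, sum_product]
    have e : ∀ x ∈ J ×ˢ J, ∑ z ∈ J ×ˢ J, (if x.1 + x.2 = z.1 + z.2 then (29 / 30 : ℝ) ^ k else 0) ≤
        J.card * (29 / 30 : ℝ) ^ k := by
      intro x _
      rw [sum_product]
      have e2 : ∀ c ∈ J, ∑ e ∈ J, (if x.1 + x.2 = (c, e).1 + (c, e).2 then (29 / 30 : ℝ) ^ k else 0) ≤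
          (29 / 30 : ℝ) ^ k := by
        intro c _
        rw [← sum_filter, sum_const, nsmul_eq_mul]
        have e3 : (J.filter (fun e => x.1 + x.2 = (c, e).1 + (c, e).2)).card ≤ 1 := by
          rw [card_le_one]
          intro a ha b hb
          have h1 := (mem_filter.1 ha).2
          have h2 := (mem_filter.1 hb).2
          simp only at h1 h2
          omega
        have e4 : ((J.filter (fun e => x.1 + x.2 = (c, e).1 + (c, e).2)).card : ℝ) ≤ 1 := by exact_mod_cast e3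
        have hpos : (0 : ℝ) ≤ (29 / 30) ^ k := by positivity
        nlinarith
      refine (sum_le_sum e2).trans ?_
      rw [sum_const, nsmul_eq_mul]
    refine (sum_le_sum e).trans ?_
    rw [sum_const, nsmul_eq_mul, card_product]
    push_cast
    have hpos : (0 : ℝ) ≤ (29 / 30) ^ k := by positivity
    calc (J.card : ℝ) * J.card * (J.card * (29 / 30 : ℝ) ^ k) ≤ n * n * (n * (29 / 30 : ℝ) ^ k) := by gcongr
      _ = _ := by ring
  have hnorm : ∑ ω : Fin k → ZMod q, ∫ t in (0 : ℝ)..(2 * Real.pi),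
      ‖tp n (fun j => if j ∈ J then hh q (mu q j ω) else 0) t‖ ^ 4 ≤
      (q : ℝ) ^ k * (2 * Real.pi) * (n ^ 2 + n ^ 2 + n ^ 3 * (29 / 30 : ℝ) ^ k) := by
    rw [← abs_of_nonneg hnn, ← Real.norm_eq_abs, ← Complex.norm_real, key]
    refine (norm_sum_le _ _).trans ((sum_le_sum hpt).trans ?_)
    rw [← mul_sum, sum_add_distrib, sum_add_distrib]
    refine mul_le_mul_of_nonneg_left ?_ (by positivity)
    linarith
  refine hnorm.trans ?_
  have h7 : (n : ℝ) ^ 3 * (29 / 30 : ℝ) ^ k ≤ n ^ 2 := by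
    calc (n : ℝ) ^ 3 * (29 / 30 : ℝ) ^ k = (n : ℝ) ^ 2 * ((n : ℝ) * (29 / 30 : ℝ) ^ k) := by ring
      _ ≤ (n : ℝ) ^ 2 * 1 := mul_le_mul_of_nonneg_left hk (by positivity)
      _ = (n : ℝ) ^ 2 := mul_one _
  calc (q : ℝ) ^ k * (2 * Real.pi) * ((n : ℝ) ^ 2 + (n : ℝ) ^ 2 + (n : ℝ) ^ 3 * (29 / 30 : ℝ) ^ k) ≤
        (q : ℝ) ^ k * (2 * Real.pi) * ((n : ℝ) ^ 2 + (n : ℝ) ^ 2 + (n : ℝ) ^ 2) := by gcongr
    _ = _ := by ring

end Pool.Agent.P8H94.TR
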